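import Pool.Agent.Helper73.DC.St7

set_option autoImplicit false

/-! Project DC (MP_26f0da_lc): module D7 (deterministic context-free languages). -/

namespace Pool.Agent.Helper6.DC

open Pool.Agent.Helper73.DC
open Finset
open scoped Classical

theorem run_of_rtg {α : Type} (M : DPDA α) {c d : M.Q × List α × List M.Γ}
    (h : Relation.ReflTransGen M.Step c d) : ∃ l, M.Run l c d := by
  induction h using Relation.ReflTransGen.head_induction_on with
  | refl => exact ⟨0, rfl⟩
  | head h1 _ ih =>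
    obtain ⟨l, hl⟩ := ih
    exact ⟨l + 1, _, h1, hl⟩

theorem mD7 : StABS → StD1 → StD2 → StD3 → StD4 → StD5 → StD6 → StD7 := by
  intro hABS hD1 hD2 _ hD4 hD5 hD6 α _ M
  obtain ⟨T, K, num, qn, hD⟩ := hD2 M
  obtain ⟨e1, e2, e3, e4, e, hb⟩ := hD1 (α := α) T
  have hlen : ([M.z0] : List M.Γ).length ≤ K := hD.hK
  have hlt := hD.hnum M.q0 [M.z0] hlen
  refine hABS (α := α) M.lang T.cl T.f0 T.lf T.wt (rsb T)
    (fun w => nde M num w.length M.q0 [M.z0] 0) e e1 e2 e3 ?_ (fun w x => (hb w x 0).1)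
    (fun w x r => (hb w x r).2.1) (fun w x => (hb w x 0).2.2.1) ?_
    (fun w => (hD6 M T K num qn hD w).1) (fun w => (hD6 M T K num qn hD w).2.1)
    (fun w => (hD6 M T K num qn hD w).2.2) ?_ ?_
  · exact e4 _ hlt
  · intro w
    have h1 := (hb w 0 0).2.2.2.1
    refine lt_trans ?_ h1
    unfold nde Tab.ac
    rw [Nat.add_zero]
    exact Nat.mul_lt_mul_of_pos_right hlt (Nat.succ_pos _)
  · intro w
    constructor
    · rintro ⟨q, s, hq, hr⟩
      obtain ⟨l, hl⟩ := run_of_rtg M hr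
      refine (hD5 M T K num qn hD w l M.q0 [M.z0] 0 hlen (Nat.zero_le _)).1 q s hq ?_
      rw [List.drop_zero]
      exact hl
    · rintro ⟨m, n, hE⟩
      obtain ⟨q', s', hq', hr⟩ := ((hD4 M T K num qn hD w _ 0 m n hE M.q0 [M.z0] 0 hlen
        (Nat.zero_le _) rfl).1 rfl).2 []
      refine ⟨q', s', hq', ?_⟩
      rw [List.drop_zero, List.append_nil] at hr
      exact hr
  · intro w m n hE
    have h1 := ((hD4 M T K num qn hD w _ 0 m n hE M.q0 [M.z0] 0 hlen (Nat.zero_le _) rfl).1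
      rfl).1
    have h2 := (hb w 0 0).2.2.2.2
    omega

end Pool.Agent.Helper6.DC
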