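import Pool.Agent.Helper73.DC.St8

set_option autoImplicit false

/-! Project DC (MP_26f0da_lc): module G5 (runs give derivations). -/

namespace Pool.Agent.Helper6.DC

open Pool.Agent.Helper73.DC
open Finset
open scoped Classical

section

variable {α : Type} (M : MPDA α) (w : List α)

/-- Decomposition of a run. -/
theorem run_split (τ : List M.Γ) : ∀ (l : ℕ) (q : M.Q) (p : Fin M.k → ℕ) (δ : List M.Γ)
    (q' : M.Q) (p' : Fin M.k → ℕ) (s' : List M.Γ), M.Run w l (q, p, δ ++ τ) (q', p', s') →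
    (∃ s'', s' = s'' ++ τ ∧ M.Run w l (q, p, δ) (q', p', s'')) ∨
    ∃ (l1 : ℕ) (q1 : M.Q) (p1 : Fin M.k → ℕ), l1 ≤ l ∧ M.Run w l1 (q, p, δ) (q1, p1, []) ∧
      M.Run w (l - l1) (q1, p1, τ) (q', p', s') := by
  intro l
  induction l with
  | zero =>
    intro q p δ q' p' s' h
    have h1 : (q, p, δ ++ τ) = (q', p', s') := h
    rw [Prod.mk.injEq, Prod.mk.injEq] at h1
    obtain ⟨rfl, rfl, rfl⟩ := h1
    exact Or.inl ⟨δ, rfl, rfl⟩
  | succ l ih =>
    intro q p δ q' p' s' h
    cases δ with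
    | nil => exact Or.inr ⟨0, q, p, Nat.zero_le _, rfl, h⟩
    | cons Z δ' =>
      obtain ⟨c', hs, hr⟩ := h
      rw [List.cons_append] at hs
      cases hs with
      | mk _ q2 _ d _ _ γ htr =>
        rw [← List.append_assoc] at hr
        have hst : M.Step w (q, p, Z :: δ') (q2, nps w d p, γ ++ δ') :=
          MPDA.Step.mk q q2 p d Z δ' γ htr
        rcases ih q2 (nps w d p) (γ ++ δ') q' p' s' hr with ⟨s'', e, h1⟩ | ⟨l1, q1, p1, hl, h1, h2⟩
        · exact Or.inl ⟨s'', e, _, hst, h1⟩
        · refine Or.inr ⟨l1 + 1, q1, p1, by omega, ⟨_, hst, h1⟩, ?_⟩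
          have e : l + 1 - (l1 + 1) = l - l1 := by omega
          rw [e]
          exact h2

end

section

variable {α : Type} [Fintype α] (M : MPDA α) (T : MTab) (K : ℕ) (num : M.Q → List M.Γ → ℕ)
  (qn : M.Q → ℕ) (w : List α)

/-- `x` has a value in `R` with a measure `< B`. -/
def EE (x B : ℕ) (R : ℕ → Prop) : Prop :=
  ∃ r m k, m + 1 ≤ B ∧ R r ∧ Ev (T.lf w) (T.cl w) (T.rs w) (fun _ => 1) x r m k

/-- The values for a run which empties the stack. -/
def Rb (q' : M.Q) (p' : Fin M.k → ℕ) (r : ℕ) : Prop :=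
  r = 0 ∨ (∀ j, p' j ≤ w.length + 1) ∧ r = qn q' * (w.length + 2) ^ M.k + pcd w.length p' + 1

/-- Bound for the measure. -/
noncomputable def Bd (l : ℕ) (β : List M.Γ) : ℕ :=
  (3 * K + 3) * l + 3 * β.length + (if β = [] then 2 else 0)

/-- Targets. -/
def Tg (c : M.Q × (Fin M.k → ℕ) × List M.Γ) (R : ℕ → Prop) : Prop :=
  (M.acc c.1 ∧ R = fun r => r = 0) ∨ (c.2.2 = [] ∧ R = Rb M qn w c.1 c.2.1)

/-- The claim. -/
def Cla (l : ℕ) (q : M.Q) (β : List M.Γ) (p : Fin M.k → ℕ) : Prop :=
  ∀ c R, Tg M qn w c R → M.Run w l (q, p, β) c →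
    EE T w (mnd M num w.length q β p) (Bd M K l β) R

theorem Tg_zero {c : M.Q × (Fin M.k → ℕ) × List M.Γ} {R : ℕ → Prop} (h : Tg M qn w c R) :
    R 0 := by
  rcases h with ⟨_, rfl⟩ | ⟨_, rfl⟩
  · rfl
  · exact Or.inl rfl

theorem Bd_two (l : ℕ) (β : List M.Γ) : 2 ≤ Bd M K l β := by
  unfold Bd
  cases β with
  | nil =>
    rw [if_pos rfl]
    exact Nat.le_add_left _ _
  | cons Z β =>
    rw [List.length_cons]
    omega

theorem Bd_cons (l : ℕ) (Z : M.Γ) (β : List M.Γ) :
    Bd M K l (Z :: β) = (3 * K + 3) * l + 3 * (β.length + 1) := by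
  unfold Bd
  rw [if_neg (List.cons_ne_nil _ _), List.length_cons, Nat.add_zero]

theorem Bd_le {l : ℕ} {γ : List M.Γ} (hγ : γ.length ≤ K) :
    Bd M K l γ + 2 ≤ (3 * K + 3) * (l + 1) + 3 := by
  have e : (3 * K + 3) * (l + 1) = (3 * K + 3) * l + (3 * K + 3) := by ring
  unfold Bd
  rw [e]
  cases γ with
  | nil =>
    rw [if_pos rfl, List.length_nil]
    omega
  | cons Z β =>
    rw [if_neg (List.cons_ne_nil _ _)]
    omega

variable {M T K num qn} in
theorem cla (h3 : StG3) (hD : MDesc M T K num qn) : ∀ (l : ℕ) (q : M.Q) (β : List M.Γ)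
    (p : Fin M.k → ℕ), β.length ≤ K → (∀ j, p j ≤ w.length + 1) → Cla M T K num qn w l q β p := by
  intro l
  induction l using Nat.strong_induction_on with
  | _ l ih =>
    -- accepting states
    have hacc : ∀ (q : M.Q) (β : List M.Γ) (p : Fin M.k → ℕ), β.length ≤ K →
        (∀ j, p j ≤ w.length + 1) → M.acc q → Cla M T K num qn w l q β p := by
      intro q β p hβ hp ha c R hT _
      have h1 := (h3 M T K num qn hD w p hp).1 q β hβ ha
      exact ⟨0, 1, 1, Bd_two M K l β, Tg_zero M qn w hT, Ev.leaf _ 0 h1⟩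
    -- one letter
    have hone : ∀ (q : M.Q) (Z : M.Γ) (p : Fin M.k → ℕ), (∀ j, p j ≤ w.length + 1) →
        Cla M T K num qn w l q [Z] p := by
      intro q Z p hp
      by_cases ha : M.acc q
      · exact hacc q [Z] p hD.hK hp ha
      intro c R hT hr
      obtain ⟨_, _, k3, k4, _, k6⟩ := h3 M T K num qn hD w p hp
      cases l with
      | zero =>
        exfalso
        have h1 : (q, p, [Z]) = c := hr
        rw [← h1] at hT
        rcases hT with ⟨h2, _⟩ | ⟨h2, _⟩
        · exact ha h2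
        · exact List.cons_ne_nil _ _ h2
      | succ l =>
        obtain ⟨c', hs, hr⟩ := hr
        cases hs with
        | mk _ q2 _ d _ _ γ htr =>
          rw [List.append_nil] at hr
          have hγ := hD.hKt q Z _ q2 d γ htr
          have hp2 : ∀ j, nps w d p j ≤ w.length + 1 := fun j => min_le_right _ _
          obtain ⟨r, m, k, hm, hR, hE⟩ := ih l (Nat.lt_succ_self l) q2 γ (nps w d p) hγ hp2 c R hT hr
          obtain ⟨e1, e2, e3⟩ := k3 q Z q2 d γ ha htr
          have hleaf : Ev (T.lf w) (T.cl w) (T.rs w) (fun _ => 1) (T.cl w (mnd M num w.length q [Z] p))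
              0 1 1 := by
            rw [e2]
            exact Ev.leaf _ 0 k6
          have hE' : Ev (T.lf w) (T.cl w) (T.rs w) (fun _ => 1)
              (T.rs w (mnd M num w.length q [Z] p) 0) r m k := by
            rw [e3]
            exact hE
          refine ⟨r, _, _, ?_, hR, Ev.node _ 0 1 1 r m k e1 hleaf hE'⟩
          have h5 := Bd_le M K (l := l) hγ
          rw [Bd_cons, List.length_nil]
          omega
    intro q β p hβ hp
    by_cases ha : M.acc q
    · exact hacc q β p hβ hp ha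
    match β, hβ with
    | [], _ =>
      intro c R hT hr
      obtain ⟨_, k2, _⟩ := h3 M T K num qn hD w p hp
      cases l with
      | zero =>
        have h1 : (q, p, []) = c := hr
        rw [← h1] at hT
        rcases hT with ⟨h2, _⟩ | ⟨_, rfl⟩
        · exact absurd h2 ha
        · exact ⟨_, 1, 1, Bd_two M K 0 [], Or.inr ⟨hp, rfl⟩, Ev.leaf _ _ (k2 q ha)⟩
      | succ l =>
        obtain ⟨c', hs, _⟩ := hr
        cases hs
    | [Z], _ => exact hone q Z p hp
    | Z :: Y :: β', hβ =>
      intro c R hT hr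
      obtain ⟨_, _, _, _, k5, k6⟩ := h3 M T K num qn hD w p hp
      obtain ⟨e1, e2, e3, e4⟩ := k5 q Z Y β' hβ ha
      have hR0 := Tg_zero M qn w hT
      have comb0 : ∀ m1 k1, m1 + 1 ≤ (3 * K + 3) * l + 3 →
          Ev (T.lf w) (T.cl w) (T.rs w) (fun _ => 1) (mnd M num w.length q [Z] p) 0 m1 k1 →
          EE T w (mnd M num w.length q (Z :: Y :: β') p) (Bd M K l (Z :: Y :: β')) R := by
        intro m1 k1 hm hE
        have hE1 : Ev (T.lf w) (T.cl w) (T.rs w) (fun _ => 1)
            (T.cl w (mnd M num w.length q (Z :: Y :: β') p)) 0 m1 k1 := by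
          rw [e2]
          exact hE
        have hE2 : Ev (T.lf w) (T.cl w) (T.rs w) (fun _ => 1)
            (T.rs w (mnd M num w.length q (Z :: Y :: β') p) 0) 0 1 1 := by
          rw [e3]
          exact Ev.leaf _ 0 k6
        refine ⟨0, _, _, ?_, hR0, Ev.node _ 0 m1 k1 0 1 1 e1 hE1 hE2⟩
        rw [Bd_cons, List.length_cons]
        omega
      obtain ⟨q', p', s'⟩ := c
      have hr' : M.Run w l (q, p, [Z] ++ (Y :: β')) (q', p', s') := hr
      rcases run_split M w (Y :: β') l q p [Z] q' p' s' hr' with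
        ⟨s'', e, h1⟩ | ⟨l1, q1, p1, hl, h1, h2⟩
      · rcases hT with ⟨h4, _⟩ | ⟨h4, _⟩
        · obtain ⟨r, m1, k1, hm, hr0, hE⟩ := hone q Z p hp (q', p', s'') (fun r => r = 0)
            (Or.inl ⟨h4, rfl⟩) h1
          have hr1 : r = 0 := hr0
          subst hr1
          rw [Bd_cons, List.length_nil] at hm
          exact comb0 m1 k1 (by omega) hE
        · exfalso
          have h5 : s' = [] := h4
          rw [e] at h5
          simp at h5
      · have hl1 : 1 ≤ l1 := by
          rcases Nat.eq_zero_or_pos l1 with h0 | h0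
          · exfalso
            subst h0
            have h5 : (q, p, [Z]) = (q1, p1, []) := h1
            rw [Prod.mk.injEq, Prod.mk.injEq] at h5
            exact List.cons_ne_nil _ _ h5.2.2
          · exact h0
        have hZ : Cla M T K num qn w l1 q [Z] p := by
          rcases Nat.lt_or_ge l1 l with h5 | h5
          · exact ih l1 h5 q [Z] p hD.hK hp
          · have h6 : l1 = l := le_antisymm hl h5
            rw [h6]
            exact hone q Z p hp
        obtain ⟨r, m1, k1, hm, hr0, hE⟩ := hZ (q1, p1, []) (Rb M qn w q1 p1)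
          (Or.inr ⟨rfl, rfl⟩) h1
        rw [Bd_cons, List.length_nil] at hm
        have hmul : (3 * K + 3) * l1 + (3 * K + 3) * (l - l1) = (3 * K + 3) * l := by
          rw [← Nat.mul_add]
          congr 1
          omega
        rcases hr0 with hr0 | ⟨hp1, hr0⟩
        · subst hr0
          exact comb0 m1 k1 (by omega) hE
        · subst hr0
          obtain ⟨r2, m2, k2, hm2, hR2, hE2⟩ := ih (l - l1) (by omega) q1 (Y :: β') p1
            (by rw [List.length_cons] at hβ; omega) hp1 (q', p', s') R hT h2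
          rw [Bd_cons] at hm2
          have hE1' : Ev (T.lf w) (T.cl w) (T.rs w) (fun _ => 1)
              (T.cl w (mnd M num w.length q (Z :: Y :: β') p))
              (qn q1 * (w.length + 2) ^ M.k + pcd w.length p1 + 1) m1 k1 := by
            rw [e2]
            exact hE
          have hE2' : Ev (T.lf w) (T.cl w) (T.rs w) (fun _ => 1)
              (T.rs w (mnd M num w.length q (Z :: Y :: β') p)
                (qn q1 * (w.length + 2) ^ M.k + pcd w.length p1 + 1)) r2 m2 k2 := by
            rw [e4 q1 p1 hp1]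
            exact hE2
          refine ⟨r2, _, _, ?_, hR2, Ev.node _ _ m1 k1 r2 m2 k2 e1 hE1' hE2'⟩
          rw [Bd_cons, List.length_cons]
          omega

end

theorem mG5 : StG3 → StG5 := by
  intro h3 α _ M T K num qn hD w l q β p hβ hp
  have h := cla w h3 hD l q β p hβ hp
  constructor
  · intro q' p' s' ha hr
    obtain ⟨r, m, k, hm, hr0, hE⟩ := h (q', p', s') (fun r => r = 0) (Or.inl ⟨ha, rfl⟩) hr
    have hr1 : r = 0 := hr0
    subst hr1
    exact ⟨m, k, hm, hE⟩
  · intro q' p' hr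
    obtain ⟨r, m, k, hm, hr0, hE⟩ := h (q', p', []) (Rb M qn w q' p') (Or.inr ⟨rfl, rfl⟩) hr
    refine ⟨m, k, hm, ?_⟩
    rcases hr0 with hr0 | ⟨hp1, hr0⟩
    · subst hr0
      exact Or.inl hE
    · subst hr0
      exact Or.inr ⟨hp1, hE⟩

end Pool.Agent.Helper6.DC
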